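import Pool.Agent.MP_a04191_co.Neg
import Pool.Agent.MP_a04191_co.Two

namespace Pool.Agent.Results.MP_a04191_co.OnlyRTwo

open Pool.Agent.MP_a04191_co

/-- For `r ≥ 2`, the bound `f_r = o(n^(r+1))` holds for flag weak `(2r-1)`-pseudomanifolds
exactly when `r = 2`. -/
theorem result (r : ℕ) (hr : 2 ≤ r) :
    (∀ β : ℝ, 0 < β → ∃ n₀ : ℕ, ∀ (V : Type) [Fintype V] (G : SimpleGraph V),
      IsWeakPM (2 * r) G → n₀ ≤ Fintype.card V →
        ((G.cliqueSet (r + 1)).ncard : ℝ) ≤ β * (Fintype.card V : ℝ) ^ (r + 1)) ↔ r = 2 := by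
  constructor
  · intro h
    by_contra hne
    obtain ⟨R, hR, hex⟩ := dense_examples r (by omega)
    have hR' : (0 : ℝ) < R := by exact_mod_cast hR
    obtain ⟨n₀, hn₀⟩ := h (1 / (2 * R)) (by positivity)
    obtain ⟨V, hV, G, h1, h2, h3⟩ := hex (n₀ + 1)
    have h4 := hn₀ V G h1 (by omega)
    have h5 : (Fintype.card V : ℝ) ^ (r + 1) ≤ R * ((G.cliqueSet (r + 1)).ncard : ℝ) := by
      exact_mod_cast h3
    have h6 : (0 : ℝ) < (Fintype.card V : ℝ) ^ (r + 1) := by
      have : 0 < Fintype.card V := by omega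
      positivity
    have h7 := mul_le_mul_of_nonneg_left h4 hR'.le
    have h8 : (R : ℝ) * (1 / (2 * R) * (Fintype.card V : ℝ) ^ (r + 1)) =
        (Fintype.card V : ℝ) ^ (r + 1) / 2 := by
      field_simp
    linarith
  · rintro rfl β hβ
    exact sparse_two β hβ

end Pool.Agent.Results.MP_a04191_co.OnlyRTwo
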